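import Mathlib
import Pool.Agent.Q128.HC.Up
import Pool.Agent.Q128.HC.Low

/-!
# Best approximation of short plane curves by piecewise monotone curves

`1/3 ≤ c₆ ≤ 1/2`. Upper bound: cut the curve at the first times at which the bounding box of the
current piece has a side of length `1/n`; the centres of two consecutive boxes are at distance at
most `1/(2n)` from a common point of the curve, so the polygon through the centres is good enough.
Lower bound: a comb with spikes of length `2ε` and spacing `2ε` costs the length `6ε` for each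
spike, and each spike forces two intervals of monotonicity.
-/

set_option autoImplicit false

open Set Metric Filter Topology

namespace Pool.Agent.Results.MP_04143b_an.HausdorffConstant

/-- `M_n`: the functions continuous on `[0,1]` with at most `n` intervals of monotonicity:
there are `0 = t_0 < t_1 < … < t_k = 1` with `k ≤ n` such that `φ` is monotone or antitone on each
`[t_i, t_{i+1}]`. -/
def IsM (n : ℕ) (φ : ℝ → ℝ) : Prop :=
  ContinuousOn φ (Icc 0 1) ∧ ∃ k ≤ n, ∃ t : ℕ → ℝ, t 0 = 0 ∧ t k = 1 ∧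
    ∀ i < k, t i < t (i + 1) ∧
      (MonotoneOn φ (Icc (t i) (t (i + 1))) ∨ AntitoneOn φ (Icc (t i) (t (i + 1))))

/-- the plane curve `{(φ(t), ψ(t)) : t ∈ [0,1]}` -/
def curve (φ ψ : ℝ → ℝ) : Set (ℝ × ℝ) := (fun t => (φ t, ψ t)) '' Icc (0:ℝ) 1

/-- `E(M_n²; F)`; the distance of `ℝ × ℝ` in Mathlib is the box (maximum) metric -/
noncomputable def E1 (n : ℕ) (F : Set (ℝ × ℝ)) : ℝ :=
  sInf {r : ℝ | ∃ φ ψ : ℝ → ℝ, IsM n φ ∧ IsM n ψ ∧ r = hausdorffDist F (curve φ ψ)}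

/-- `Γ_1`: the continuous plane curves of length at most one, as point sets. The length is the
total variation for the Euclidean distance, which is the distance of `ℂ`. -/
def Gam : Set (Set (ℝ × ℝ)) :=
  {F | ∃ f : ℝ → ℂ, ContinuousOn f (Icc 0 1) ∧ eVariationOn f (Icc 0 1) ≤ 1 ∧
    F = (fun t => ((f t).re, (f t).im)) '' Icc (0:ℝ) 1}

/-- `E(M_n²; Γ_1)` -/
noncomputable def E (n : ℕ) : ℝ := sSup (E1 n '' Gam)

/-- the constant `c₆` -/
noncomputable def c6 : ℝ := limsup (fun n : ℕ => (n : ℝ) * E n) atTop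

lemma bddBelow_set (n : ℕ) (F : Set (ℝ × ℝ)) :
    BddBelow {r : ℝ | ∃ φ ψ : ℝ → ℝ, IsM n φ ∧ IsM n ψ ∧ r = hausdorffDist F (curve φ ψ)} := by
  refine ⟨0, ?_⟩
  rintro r ⟨φ, ψ, -, -, rfl⟩
  exact hausdorffDist_nonneg

lemma isM_const {n : ℕ} (hn : 1 ≤ n) (c : ℝ) : IsM n (fun _ => c) := by
  refine ⟨continuousOn_const, 1, hn, fun i => i, by simp, by simp, ?_⟩
  intro i _
  refine ⟨by push_cast; linarith, Or.inl ?_⟩
  intro x _ y _ _
  exact le_rfl

lemma isM_affine {n : ℕ} (hn : 1 ≤ n) {φ : ℝ → ℝ} (hc : Continuous φ) (a d : ℕ → ℝ)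
    (h : ∀ i < n, ∀ x : ℝ, (i:ℝ) ≤ n * x → n * x ≤ i + 1 → φ x = a i + (n * x - i) * d i) :
    IsM n φ := by
  have hn0 : (0:ℝ) < n := by exact_mod_cast hn
  refine ⟨hc.continuousOn, n, le_rfl, fun i => i / n, by simp, by field_simp, ?_⟩
  intro i hi
  have hmem : ∀ x ∈ Icc ((i:ℝ) / n) (((i + 1 : ℕ) : ℝ) / n), φ x = a i + (n * x - i) * d i := by
    intro x hx
    have h1 := (div_le_iff₀ hn0).mp hx.1
    have h2 := (le_div_iff₀ hn0).mp hx.2
    push_cast at h2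
    exact h i hi x (by linarith) (by linarith)
  refine ⟨by push_cast; exact div_lt_div_of_pos_right (by linarith) hn0, ?_⟩
  rcases le_total 0 (d i) with hd | hd
  · left
    intro x hx y hy hxy
    rw [hmem x hx, hmem y hy]
    nlinarith [mul_le_mul_of_nonneg_left hxy hn0.le]
  · right
    intro x hx y hy hxy
    rw [hmem x hx, hmem y hy]
    nlinarith [mul_le_mul_of_nonneg_left hxy hn0.le]

lemma E1_le {n : ℕ} (hn : 1 ≤ n) {F : Set (ℝ × ℝ)} (hF : F ∈ Gam) : E1 n F ≤ 1 / (2 * n) := by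
  obtain ⟨f, hf, hv, rfl⟩ := hF
  have hlip : LipschitzWith 1 (fun z : ℂ => (z.re, z.im)) := by
    refine LipschitzWith.of_dist_le_mul fun z w => ?_
    rw [NNReal.coe_one, one_mul, Prod.dist_eq, dist_eq_norm z w]
    refine max_le ?_ ?_
    · rw [Real.dist_eq, ← Complex.sub_re]; exact Complex.abs_re_le_norm _
    · rw [Real.dist_eq, ← Complex.sub_im]; exact Complex.abs_im_le_norm _
  have hg : ContinuousOn (fun t => ((f t).re, (f t).im)) (Icc (0:ℝ) 1) :=
    hlip.continuous.comp_continuousOn hf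
  have hgv : eVariationOn (fun t => ((f t).re, (f t).im)) (Icc (0:ℝ) 1) ≤ 1 := by
    have := (hlip.lipschitzOnWith (s := univ)).comp_eVariationOn_le (g := f) (s := Icc (0:ℝ) 1)
      (fun _ _ => mem_univ _)
    rw [ENNReal.coe_one, one_mul] at this
    exact this.trans hv
  obtain ⟨c, hc⟩ := Q128.HC.upper hn hg hgv
  refine (csInf_le (bddBelow_set n _) ⟨fun t => (Q128.HC.P c n t).1,
    fun t => (Q128.HC.P c n t).2, ?_, ?_, rfl⟩).trans hc
  · refine isM_affine hn (continuous_fst.comp (Q128.HC.P_cont c n)) (fun i => (c i).1)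
      (fun i => (c (i + 1)).1 - (c i).1) fun i hi x h0 h1 => ?_
    rw [Q128.HC.P_eq c hi h0 h1]
    simp
  · refine isM_affine hn (continuous_snd.comp (Q128.HC.P_cont c n)) (fun i => (c i).2)
      (fun i => (c (i + 1)).2 - (c i).2) fun i hi x h0 h1 => ?_
    rw [Q128.HC.P_eq c hi h0 h1]
    simp

lemma bddAbove_E {n : ℕ} (hn : 1 ≤ n) : BddAbove (E1 n '' Gam) := by
  refine ⟨1 / (2 * n), ?_⟩
  rintro r ⟨F, hF, rfl⟩
  exact E1_le hn hF

lemma comb_mem {N : ℕ} (hN : 1 ≤ N) :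
    Q128.HC.comb N (1 / ((3 * N : ℕ) : ℝ)) ∈ Gam :=
  ⟨_, (Q128.HC.cb_cont _ _).continuousOn, Q128.HC.cb_var (show 1 ≤ 3 * N by omega), rfl⟩

lemma lowerE {n : ℕ} (hn : 1 ≤ n) : 1 / (3 * (n:ℝ) + 12) ≤ E n := by
  set N : ℕ := n / 2 + 2 with hN
  have hK0 : (0:ℝ) < ((3 * N : ℕ) : ℝ) := by exact_mod_cast (show 0 < 3 * N by omega)
  have h1 : 1 / ((3 * N : ℕ) : ℝ) / 2 ≤ E n := by
    refine le_trans ?_ (le_csSup (bddAbove_E hn) ⟨_, comb_mem (show 1 ≤ N by omega), rfl⟩)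
    refine le_csInf ⟨_, _, _, isM_const hn 0, isM_const hn 0, rfl⟩ ?_
    rintro r ⟨φ, ψ, ⟨hφ, -⟩, ⟨hψ, k, hk, t, ht0, htk, ht⟩, rfl⟩
    by_contra hcon
    push Not at hcon
    have h1 := Q128.HC.lower (show 1 ≤ N by omega) (by positivity) hφ hψ (k := k)
      ⟨t, ht0, htk, fun i hi => ⟨(ht i hi).1.le, (ht i hi).2⟩⟩ hcon
    omega
  refine le_trans ?_ h1
  rw [div_div]
  refine one_div_le_one_div_of_le (by positivity) ?_
  have : 6 * N ≤ 3 * n + 12 := by omega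
  have h2 : (6:ℝ) * N ≤ 3 * n + 12 := by exact_mod_cast this
  push_cast
  linarith

lemma upperE {n : ℕ} (hn : 1 ≤ n) : E n ≤ 1 / (2 * n) := by
  refine csSup_le ⟨_, _, comb_mem le_rfl, rfl⟩ ?_
  rintro r ⟨F, hF, rfl⟩
  exact E1_le hn hF

/-- **`1/3 ≤ c₆ ≤ 1/2`**, with explicit two-sided bounds for `E(M_n²; Γ_1)`. -/
theorem result :
    (∀ n : ℕ, 1 ≤ n → BddAbove (E1 n '' Gam)) ∧
    (∀ n : ℕ, 1 ≤ n → 1 / (3 * (n:ℝ) + 12) ≤ E n ∧ E n ≤ 1 / (2 * n)) ∧
    1 / 3 ≤ liminf (fun n : ℕ => (n : ℝ) * E n) atTop ∧ 1 / 3 ≤ c6 ∧ c6 ≤ 1 / 2 := by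
  have hup : ∀ᶠ n : ℕ in atTop, (n:ℝ) * E n ≤ 1 / 2 := by
    filter_upwards [eventually_ge_atTop 1] with n hn
    have hn0 : (0:ℝ) < n := by exact_mod_cast hn
    calc (n:ℝ) * E n ≤ n * (1 / (2 * n)) := mul_le_mul_of_nonneg_left (upperE hn) hn0.le
      _ = 1 / 2 := by field_simp
  have hlow : ∀ b : ℝ, b < 1 / 3 → ∀ᶠ n : ℕ in atTop, b ≤ (n:ℝ) * E n := by
    intro b hb
    filter_upwards [eventually_ge_atTop 1,
      (tendsto_natCast_atTop_atTop (R := ℝ)).eventually_ge_atTop (12 * b / (1 - 3 * b))] with n hn h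
    have hn0 : (0:ℝ) < n := by exact_mod_cast hn
    have h3 : 0 < 1 - 3 * b := by linarith
    have h4 := (div_le_iff₀ h3).mp h
    calc b ≤ n * (1 / (3 * (n:ℝ) + 12)) := by
          rw [mul_one_div, le_div_iff₀ (by positivity)]; nlinarith
      _ ≤ (n:ℝ) * E n := mul_le_mul_of_nonneg_left (lowerE hn) hn0.le
  have hbd1 : IsBoundedUnder (· ≤ ·) atTop (fun n : ℕ => (n:ℝ) * E n) := ⟨1 / 2, by
    rw [eventually_map]; exact hup⟩
  have hbd2 : IsBoundedUnder (· ≥ ·) atTop (fun n : ℕ => (n:ℝ) * E n) := ⟨0, by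
    rw [eventually_map]; exact hlow 0 (by norm_num)⟩
  have hlim : 1 / 3 ≤ liminf (fun n : ℕ => (n : ℝ) * E n) atTop := by
    by_contra hcon
    push Not at hcon
    obtain ⟨b, hb1, hb2⟩ := exists_between hcon
    have := le_liminf_of_le hbd1.isCoboundedUnder_ge (hlow b hb2)
    linarith
  refine ⟨fun n hn => bddAbove_E hn, fun n hn => ⟨lowerE hn, upperE hn⟩, hlim, ?_, ?_⟩
  · exact hlim.trans (liminf_le_limsup hbd1 hbd2)
  · exact limsup_le_of_le hbd2.isCoboundedUnder_le hup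

end Pool.Agent.Results.MP_04143b_an.HausdorffConstant
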